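import Mathlib
import Pool.Agent.H21.FM.Defs
import Pool.Agent.H59.Q1.Arm1

set_option autoImplicit false
open Finset

/-! # The lower bound `MarkBound.low` from a gluing bound

`Σ_{j ≤ t h} P(v_j ↔ IV) ≥ c h^(2/3)`, given `P(v_j ↔ IV) ≥ c a1 1 j` (one arm at a wall along the tile
axes). -/

namespace Pool.Agent.H9.FM

open Pool.Agent.H75.Perc hiding WL CT hh
open Pool.Agent.H21.FM

/-- the two masses add up to the connection to the arc IV -/
lemma mA_add_mC (S : Shape) (h : ℕ) (v : ℤ × ℤ) :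
    mA S h v + mC S h v = Pr (EE S h) (C1 S h v) := by
  classical
  unfold mA mC
  simp only [Pr_eq]
  rw [← add_div]
  congr 1
  rw [← Nat.cast_add]
  congr 1
  rw [← card_filter_add_card_filter_not (s := (EE S h).powerset.filter fun ω => C1 S h v ω)
    (fun ω => TT S h ω), filter_filter, filter_filter]

theorem low_of_glue (S : Shape)
    (hg : ∃ c > (0 : ℝ), ∃ J H0 : ℕ, ∀ h : ℕ, H0 ≤ h → ∀ j : ℕ, J ≤ j → 4 * j ≤ h →
      c * (j : ℝ) ^ (-(1 / 3) : ℝ) ≤ Pr (EE S h) (C1 S h (wv h (S.P.side 0) j))) :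
    ∀ t > (0 : ℝ), t ≤ 1 → ∃ c > (0 : ℝ), ∃ H0 : ℕ, ∀ h : ℕ, H0 ≤ h →
    c * (h : ℝ) ^ (2 / 3 : ℝ) ≤ ∑ j ∈ Icc 1 ⌊t * h⌋₊,
      (mA S h (wv h (S.P.side 0) j) + mC S h (wv h (S.P.side 0) j)) := by
  obtain ⟨c, hc, J, H0, hg⟩ := hg
  intro t ht ht1
  refine ⟨c * t / 16, by positivity, max H0 (⌈(16 * (J + 1) / t : ℝ)⌉₊ + 16), fun h hh => ?_⟩
  have h1 : H0 ≤ h := (le_max_left _ _).trans hh
  have h2 : ⌈(16 * (J + 1) / t : ℝ)⌉₊ + 16 ≤ h := (le_max_right _ _).trans hh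
  have h3 : (16 * (J + 1) / t : ℝ) ≤ h := by
    refine (Nat.le_ceil _).trans ?_
    exact_mod_cast (by omega : ⌈(16 * (J + 1) / t : ℝ)⌉₊ ≤ h)
  have h4 : (16 * (J + 1) : ℝ) ≤ t * h := by
    rw [div_le_iff₀ ht] at h3; linarith
  have hpos : (0 : ℝ) < h := by
    have : 0 < h := by omega
    exact_mod_cast this
  set M := ⌊t * h / 4⌋₊ with hM
  have hM1 : (M : ℝ) ≤ t * h / 4 := Nat.floor_le (by positivity)
  have hM2 : t * h / 4 < M + 1 := Nat.lt_floor_add_one _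
  have hMJ : J ≤ M := by
    have : (J : ℝ) < M := by
      have : (4 * (J + 1) : ℝ) ≤ t * h / 4 := by linarith
      nlinarith [Nat.cast_nonneg (α := ℝ) J]
    exact_mod_cast this.le
  have hsub : Icc (max J 1) M ⊆ Icc 1 ⌊t * h⌋₊ := by
    intro j hj
    rw [mem_Icc] at hj ⊢
    refine ⟨(le_max_right _ _).trans hj.1, hj.2.trans ?_⟩
    refine Nat.floor_mono ?_
    have : 0 ≤ t * h := by positivity
    linarith
  have hnn : ∀ v, 0 ≤ mA S h v + mC S h v := fun v => by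
    rw [mA_add_mC]; exact Pr_nonneg _ _
  refine le_trans ?_ (sum_le_sum_of_subset_of_nonneg hsub fun i _ _ => hnn _)
  have hterm : ∀ j ∈ Icc (max J 1) M, c * (h : ℝ) ^ (-(1 / 3) : ℝ) ≤
      mA S h (wv h (S.P.side 0) j) + mC S h (wv h (S.P.side 0) j) := by
    intro j hj
    rw [mem_Icc] at hj
    have hj1 : 1 ≤ j := (le_max_right _ _).trans hj.1
    have hj4 : 4 * j ≤ h := by
      have : (4 * j : ℝ) ≤ h := by
        have : (j : ℝ) ≤ M := by exact_mod_cast hj.2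
        nlinarith
      exact_mod_cast this
    rw [mA_add_mC]
    refine le_trans ?_ (hg h h1 j ((le_max_left _ _).trans hj.1) hj4)
    refine mul_le_mul_of_nonneg_left ?_ hc.le
    refine Real.rpow_le_rpow_of_nonpos (by exact_mod_cast hj1) ?_ (by norm_num)
    exact_mod_cast (by omega : j ≤ h)
  refine le_trans ?_ (card_nsmul_le_sum _ _ _ hterm)
  rw [Nat.card_Icc, nsmul_eq_mul]
  have hcard : t * h / 16 ≤ ((M + 1 - max J 1 : ℕ) : ℝ) := by
    have e1 : max J 1 ≤ M + 1 := by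
      have : 1 ≤ M := by
        have : (0 : ℝ) < M := by nlinarith [Nat.cast_nonneg (α := ℝ) J]
        exact_mod_cast this
      omega
    rw [Nat.cast_sub e1]
    push_cast
    have e2 : ((max (J : ℝ) 1)) ≤ J + 1 := max_le (by linarith) (by linarith [Nat.cast_nonneg (α := ℝ) J])
    linarith
  calc c * t / 16 * (h : ℝ) ^ (2 / 3 : ℝ) = t * h / 16 * (c * (h : ℝ) ^ (-(1 / 3) : ℝ)) := by
        have : (h : ℝ) ^ (2 / 3 : ℝ) = h * (h : ℝ) ^ (-(1 / 3) : ℝ) := by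
          rw [← Real.rpow_one_add' hpos.le (by norm_num)]
          norm_num
        rw [this]; ring
    _ ≤ _ := mul_le_mul_of_nonneg_right hcard (by positivity)

end Pool.Agent.H9.FM
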