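import Mathlib
import Pool.Agent.H9.FM.Low
import Pool.Agent.H42.FM.Ray

set_option autoImplicit false
open Finset

/-! # The lower bound `MarkBound.low`

`arm_eq` : the one-arm probability at a wall along the tile axes is `a1 1 m`, in all orientations. -/

namespace Pool.Agent.H9.FM

open Pool.Agent.H75.Perc hiding WL CT hh EE
open Pool.Agent.H75.TwoArm Pool.Agent.H75.Four
open Pool.Agent.H60.Q1 (HL mem_HL Far)
open Pool.Agent.H60.Q1.Corn Pool.Agent.H99.NC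
open Pool.Agent.H42.FM Pool.Agent.H21.FM
open Pool.Agent.H59.Q1 (W1 a1 a1_bd Pr_W1)

/-- orientation `3` -/
lemma HB_eq3 {k : ℤ} (f : ∀ v, cr (k + 1) v = v.1 + v.2) (x : ℤ × ℤ) (m : ℤ) :
    HB k x m = HL 1 x m := by
  ext l
  rw [H42.FM.mem_HB, H42.FM.mem_BR, mem_HL, f, f]
  omega

lemma AE_eq3 {k : ℤ} (f : ∀ v, cr (k + 1) v = v.1 + v.2) (x : ℤ × ℤ) (m : ℤ)
    (ω : Finset (ℤ × ℤ)) : AE k x m ω ↔ W1 1 x m ω := by
  unfold AE W1
  rw [HB_eq3 f]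

/-- the arm bound for one orientation -/
def AB (k : ℤ) : Prop := ∀ (x : ℤ × ℤ) (m : ℤ), PrP hf (HB k x m) (AE k x m) = a1 1 m

lemma AB_rot {k : ℤ} (h : AB k) : AB (k + 1) := by
  intro x m
  obtain ⟨x', rfl⟩ : ∃ x', x = syR.g x' := ⟨syR.g' x, (syR.gg' x).symm⟩
  rw [← h x' m]
  refine (Sy_PrP syR (1 / 2) HB_rot _).trans (PrP_congr fun ω _ => ?_)
  exact AE_rot

lemma AB3 {k : ℤ} (hk : k % 4 = 3) : AB k := by
  intro x m
  have f : ∀ v, cr (k + 1) v = v.1 + v.2 := by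
    intro v
    unfold cr
    have h1 : dir (k + 1) = (1, 0) := by
      rcases dir_cases (k + 1) with ⟨a, e⟩ | ⟨a, e⟩ | ⟨a, e⟩ | ⟨a, e⟩ <;>
        first | exact e | (exfalso; omega)
    rw [h1]
    simp
  rw [HB_eq3 f, ← Pr_W1 (κ := 1) (z := x) (R := m) (E := HL 1 x m) (Subset.refl _),
    show (hf : ℤ × ℤ → ℝ) = fun _ => 1 / 2 from rfl, PrP_half]
  exact Pr_congr fun ω _ => AE_eq3 f x m ω

lemma AB_all (k : ℤ) : AB k := by
  have hk : k % 4 = 3 ∨ (k - 1) % 4 = 3 ∨ (k - 2) % 4 = 3 ∨ (k - 3) % 4 = 3 := by omega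
  rcases hk with hk | hk | hk | hk
  · exact AB3 hk
  · have := AB_rot (AB3 hk)
    rwa [sub_add_cancel] at this
  · have := AB_rot (AB_rot (AB3 hk))
    rwa [show k - 2 + 1 + 1 = k by ring] at this
  · have := AB_rot (AB_rot (AB_rot (AB3 hk)))
    rwa [show k - 3 + 1 + 1 + 1 = k by ring] at this

theorem arm_eq {k : ℤ} {x : ℤ × ℤ} {m : ℤ} {E : Finset (ℤ × ℤ)} (hE : HB k x m ⊆ E) :
    Pr E (AE k x m) = a1 1 m := by
  rw [← AB_all k x m, ← PrP_half]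
  exact PrP_local hE fun ω _ => AE_local

/-- **the lower bound at the first mark** -/
theorem markBound_low (S : Shape) : ∀ t > (0 : ℝ), t ≤ 1 → ∃ c > (0 : ℝ), ∃ H0 : ℕ,
    ∀ h : ℕ, H0 ≤ h → c * (h : ℝ) ^ (2 / 3 : ℝ) ≤ ∑ j ∈ Icc 1 ⌊t * h⌋₊,
      (mA S h (wv h (S.P.side 0) j) + mC S h (wv h (S.P.side 0) j)) := by
  apply low_of_glue
  obtain ⟨c, hc, hglue⟩ := glue
  obtain ⟨c1, C1', hc1, hc11, -, ha⟩ := a1_bd
  refine ⟨c * c1, by positivity, 3, 3, fun h hh j hj hjh => ?_⟩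
  have h0 : 0 < h := by omega
  have hQ : QB (S.k 0) (v1 S h) (h - 1) ⊆ EE S h := QB_sub_EE h0 (by omega)
  have hz1 : (3 : ℤ) ≤ j := by exact_mod_cast hj
  have hz2 : (4 : ℤ) * j ≤ h := by exact_mod_cast hjh
  have g1 := hglue (S.k 0) (v1 S h) j (h - 1) (EE S h) (by omega) (by omega) hQ
  have hHB : HB (S.k 0) (pk (S.k 0) (v1 S h) j) (3 * ((j : ℤ) / 3)) ⊆ EE S h :=
    (HB_sub (by omega) (by omega)).trans hQ
  rw [arm_eq hHB] at g1
  have g2 : Pr (EE S h) (XE (S.k 0) (v1 S h) j (h - 1)) ≤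
      Pr (EE S h) (C1 S h (wv h (S.P.side 0) j)) := by
    refine Pr_mono fun ω _ hx => ?_
    have := C1_of_XE h0 (by omega : 1 ≤ j) (le_refl _) hx
    unfold C1 at this ⊢
    exact this.mono (union_subset_union_left inter_subset_left)
  refine le_trans ?_ (g1.trans g2)
  rw [mul_assoc]
  refine mul_le_mul_of_nonneg_left ?_ hc.le
  refine le_trans ?_ (ha 1 (Or.inr rfl) (3 * ((j : ℤ) / 3)) (by omega)).1
  refine mul_le_mul_of_nonneg_left ?_ hc1.le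
  refine Real.rpow_le_rpow_of_nonpos ?_ ?_ (by norm_num)
  · have : (0 : ℤ) < 3 * ((j : ℤ) / 3) := by omega
    exact_mod_cast this
  · have : 3 * ((j : ℤ) / 3) ≤ j := by omega
    exact_mod_cast this

end Pool.Agent.H9.FM
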