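import Mathlib
import Pool.Agent.H9.FM.LowMain
import Pool.Agent.H42.FM.Dec

set_option autoImplicit false

namespace Pool.Agent.H9.FM

open Pool.Agent.H21.FM

/-- **(P5)** -/
theorem markBound (S : Shape) : MarkBound S :=
  ⟨Pool.Agent.H42.FM.markBound_dec S, markBound_low S⟩

end Pool.Agent.H9.FM
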