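import Mathlib
import Pool.Agent.H42.FM.Ray
import Pool.Agent.H21.FM.Common
import Pool.Agent.H75.TwoArm.BadCore

set_option autoImplicit false
open Finset

/-! # Convex corners of a shape

`Cx S s`: the vertex `wv h s 0` is a convex corner with the sides `(s.1, s.2 - 1)` before it and `s` after
it. Local description of `EE` and of the layers. `A s w f`: position of the face `f` in the tile frame. -/

namespace Pool.Agent.H9.FM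

open Pool.Agent.H75.Perc hiding WL CT hh EE sh
open Pool.Agent.H75.TwoArm Pool.Agent.H75.Four Pool.Agent.H69.Q1 Pool.Agent.Q1
open Pool.Agent.H5.Q1 (oc vx_oc ty_oc fi_oc oc_congr oc_inj eq_oc nxC_oc nxO_oc oc_cases)
open Pool.Agent.Q1.M4 (Cell Good IsSide nextSide tail head PType Adj4 Conn4)
open Pool.Agent.H33.Q1 Pool.Agent.H21.FM Pool.Agent.H42.FM
open Pool.Agent.H60.Q1 (Near Far)
open Pool.Agent.H99.NC (BR inR inR_iff)

/-- convex corner -/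
structure Cx (S : Shape) (s : Cell × ℤ) : Prop where
  a : IsSide S.P.Q s
  b : IsSide S.P.Q (s.1, s.2 - 1)

variable {S : Shape} {h : ℕ} {s : Cell × ℤ}

lemma Cx.cells (H : Cx S s) : s.1 ∈ S.P.Q ∧ s.1 - dir (s.2 + 1) ∉ S.P.Q ∧
    s.1 - dir s.2 ∉ S.P.Q ∧ s.1 - dir (s.2 + 1) - dir s.2 ∉ S.P.Q := by
  have h0 := H.a
  have h1 := H.b
  have a1 : s.1 - dir (s.2 + 1) ∉ S.P.Q := by
    have := h0.2
    rw [dir_pred, ← sub_eq_add_neg] at this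
    exact this
  have a2 : s.1 - dir s.2 ∉ S.P.Q := by
    have := h1.2
    simp only at this
    have e : dir (s.2 - 1 - 1) = - dir s.2 := by
      rw [← Pool.Agent.Q1.M4.dir_neg, dir_congr (show (s.2 - 1 - 1) % 4 = (s.2 + 2) % 4 by omega)]
    rw [e, ← sub_eq_add_neg] at this
    exact this
  refine ⟨h0.1, a1, a2, ?_⟩
  have := diag_notMem S.P.good h0.1 h0.2 a2
  rw [dir_pred, ← sub_eq_add_neg] at this
  exact this

/-- the random labels near a convex corner -/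
theorem Cx.mem_EE (H : Cx S s) (hh : 0 < h) {l : ℤ × ℤ} (hl : l ∈ BR (wv h s 0) h) :
    l ∈ EE S h ↔ dK s.2 (wv h s 0) l := by
  obtain ⟨c1, c2, c3, c4⟩ := H.cells
  obtain ⟨d1, d2, d3, d4⟩ := cell4 hh s hl
  have hn : (0 : ℤ) < 2 * h := by positivity
  unfold EE
  rw [mem_TL hn]
  rw [mem_BR] at hl
  unfold dK
  by_cases a : 2 * cr s.2 (wv h s 0) ≤ cr s.2 l <;>
  by_cases b : 2 * cr (s.2 + 1) (wv h s 0) ≤ cr (s.2 + 1) l
  · exact ⟨fun _ => ⟨a, b⟩, fun _ => ⟨hl.2.2, by rw [d1 a b]; exact c1⟩⟩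
  · exact ⟨fun g => absurd (d2 a b ▸ g.2) c2, fun g => absurd g.2 b⟩
  · exact ⟨fun g => absurd (d3 a b ▸ g.2) c3, fun g => absurd g.1 a⟩
  · exact ⟨fun g => absurd (d4 a b ▸ g.2) c4, fun g => absurd g.1 a⟩

lemma cr_sh_next (k : ℤ) : cr k (sh (dir (k + 1))) = 0 ∧ cr (k + 1) (sh (dir (k + 1))) = 2 := by
  unfold sh
  rcases cr_all k with ⟨⟨-, a⟩, e, f⟩ | ⟨⟨-, a⟩, e, f⟩ | ⟨⟨-, a⟩, e, f⟩ | ⟨⟨-, a⟩, e, f⟩ <;>
    rw [e, f, a] <;> simp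

lemma BR_sh {w l : ℤ × ℤ} (k : ℤ) (hl : l ∈ BR w (h - 1)) : l + sh (dir k) ∈ BR w h := by
  rw [mem_BR] at hl ⊢
  unfold sh
  simp only [Prod.fst_add, Prod.snd_add]
  rcases cr_all k with ⟨⟨u, v⟩, -⟩ | ⟨⟨u, v⟩, -⟩ | ⟨⟨u, v⟩, -⟩ | ⟨⟨u, v⟩, -⟩ <;>
  rw [u] <;> simp only <;> omega

/-- the layer of the side after the corner -/
theorem LY_after (hh : 0 < h) (s : Cell × ℤ) {l : ℤ × ℤ} (hl : l ∈ BR (wv h s 0) (h - 1))
    (h1 : cr (s.2 + 1) l = 2 * cr (s.2 + 1) (wv h s 0) - 1)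
    (h2 : 2 * cr s.2 (wv h s 0) ≤ cr s.2 l) : l ∈ LY (2 * h) s := by
  have hn : (0 : ℤ) < 2 * h := by positivity
  have hodd : (l.1 + l.2) % 2 = 1 := (mem_BR.1 hl).2.2
  have hlB : l ∈ BR (wv h s 0) h := Pool.Agent.H20.Q1.BR_mono (by omega) hl
  have g3 := cr_sh_next s.2
  rw [mem_LY hn, dir_pred]
  refine ⟨hodd, ?_, ?_⟩
  · rw [(cell4 hh s hlB).2.1 h2 (by omega), sub_eq_add_neg]
  · rw [sub_neg_eq_add, ← tt_sh hodd]
    refine (cell4 hh s (BR_sh (s.2 + 1) hl)).1 ?_ ?_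
    · rw [cr_add]; omega
    · rw [cr_add]; omega

/-- the layer of the side before the corner -/
theorem LY_before (hh : 0 < h) (s : Cell × ℤ) {l : ℤ × ℤ} (hl : l ∈ BR (wv h s 0) (h - 1))
    (h1 : cr s.2 l = 2 * cr s.2 (wv h s 0) - 1)
    (h2 : 2 * cr (s.2 + 1) (wv h s 0) ≤ cr (s.2 + 1) l) : l ∈ LY (2 * h) (s.1, s.2 - 1) := by
  have hn : (0 : ℤ) < 2 * h := by positivity
  have hodd : (l.1 + l.2) % 2 = 1 := (mem_BR.1 hl).2.2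
  have hlB : l ∈ BR (wv h s 0) h := Pool.Agent.H20.Q1.BR_mono (by omega) hl
  have g3 := cr_sh_self s.2
  have e : dir (s.2 - 1 - 1) = - dir s.2 := by
    rw [← Pool.Agent.Q1.M4.dir_neg, dir_congr (show (s.2 - 1 - 1) % 4 = (s.2 + 2) % 4 by omega)]
  rw [mem_LY hn]
  simp only
  rw [e]
  refine ⟨hodd, ?_, ?_⟩
  · rw [(cell4 hh s hlB).2.2.1 (by omega) h2, sub_eq_add_neg]
  · rw [sub_neg_eq_add, ← tt_sh hodd]
    refine (cell4 hh s (BR_sh s.2 hl)).1 ?_ ?_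
    · rw [cr_add]; omega
    · rw [cr_add]; omega

/-! ### faces in the tile frame -/

/-- coordinate of the face `f` along `dir k`, relative to the vertex `w` -/
def fa (k : ℤ) (w f : ℤ × ℤ) : ℤ := cr k f - (dir k).1 - cr k w

lemma fa_par (k : ℤ) (w f : ℤ × ℤ) : (fa k w f + fa (k + 1) w f) % 2 = 1 := by
  unfold fa
  rcases cr_all k with ⟨⟨a, b⟩, e, f⟩ | ⟨⟨a, b⟩, e, f⟩ | ⟨⟨a, b⟩, e, f⟩ | ⟨⟨a, b⟩, e, f⟩ <;>
    rw [e, e, f, f, a, b] <;> simp only <;> omega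

lemma fa_unit (k : ℤ) (w : ℤ × ℤ) {a b : ℤ × ℤ} (hu : IsUnit4 (b - a)) :
    (fa k w b = fa k w a + 1 ∨ fa k w b = fa k w a - 1) ∧
    (fa (k + 1) w b = fa (k + 1) w a + 1 ∨ fa (k + 1) w b = fa (k + 1) w a - 1) := by
  have h1 := cr_unit k hu
  unfold fa
  omega

lemma fa_lab (k : ℤ) (w a b : ℤ × ℤ) : cr k (a + b - (1, 1)) = 2 * cr k w + fa k w a + fa k w b ∧
    cr (k + 1) (a + b - (1, 1)) = 2 * cr (k + 1) w + fa (k + 1) w a + fa (k + 1) w b := by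
  unfold fa
  rcases cr_all k with ⟨⟨a', b'⟩, e, f⟩ | ⟨⟨a', b'⟩, e, f⟩ | ⟨⟨a', b'⟩, e, f⟩ | ⟨⟨a', b'⟩, e, f⟩ <;>
    simp only [e, f, a', b', Prod.fst_add, Prod.snd_add, Prod.fst_sub, Prod.snd_sub] <;>
    constructor <;> ring

lemma cr_next_dir (k : ℤ) : cr k (dir (k + 1)) = 1 ∧ cr (k + 1) (dir (k + 1)) = 1 := by
  rcases cr_all k with ⟨⟨a', b'⟩, e, f⟩ | ⟨⟨a', b'⟩, e, f⟩ | ⟨⟨a', b'⟩, e, f⟩ | ⟨⟨a', b'⟩, e, f⟩ <;>
    rw [e, f, b'] <;> simp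

/-- labels of the dual configuration in the shifted quadrant -/
lemma dK_dual {k : ℤ} {w a b : ℤ × ℤ} (h1 : 0 ≤ fa k w a + fa k w b)
    (h2 : 0 ≤ fa (k + 1) w a + fa (k + 1) w b) : dK k (w - dir (k + 1)) (a + b) := by
  have e1 : cr k (w - dir (k + 1)) = cr k w - 1 ∧ cr (k + 1) (w - dir (k + 1)) = cr (k + 1) w - 1 := by
    have h3 := cr_next_dir k
    have h4 := cr_add k (w - dir (k + 1)) (dir (k + 1))
    have h5 := cr_add (k + 1) (w - dir (k + 1)) (dir (k + 1))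
    rw [sub_add_cancel] at h4 h5
    omega
  unfold dK
  rw [e1.1, e1.2, cr_add, cr_add]
  unfold fa at h1 h2
  have h6 : (dir k).1 ≤ 1 ∧ -1 ≤ (dir k).1 ∧ (dir (k + 1)).1 ≤ 1 ∧ -1 ≤ (dir (k + 1)).1 := by
    rcases cr_all k with ⟨⟨a', b'⟩, -⟩ | ⟨⟨a', b'⟩, -⟩ | ⟨⟨a', b'⟩, -⟩ | ⟨⟨a', b'⟩, -⟩ <;>
      rw [a', b'] <;> simp
  omega

/-- the four faces at a corner -/
lemma DCo_oc {w' : Finset (ℤ × ℤ)} {v : ℤ × ℤ} {k : ℤ} (hl : ql v (k - 1) ∉ w') :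
    DCo w' (fi (oc v k)) (fi (oc v (k + 1))) := by
  obtain ⟨h1, h2⟩ := BadAux.fi_nxC (oc v k)
  rw [nxC_oc] at h1 h2
  exact DCo.step h1 (by rw [h2, lab_oc]; exact hl)

end Pool.Agent.H9.FM
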