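import Mathlib
import Pool.Agent.H9.FM.Cx

set_option autoImplicit false
open Finset

/-! # The faces of the free walls are joined to the root

`chain`: all the faces of a free arc are joined, off `ω ∪ W`, to the face of the root corner. -/

namespace Pool.Agent.H9.FM

open Pool.Agent.H75.Perc hiding WL CT hh EE sh
open Pool.Agent.H75.TwoArm Pool.Agent.H75.Four Pool.Agent.H69.Q1 Pool.Agent.Q1
open Pool.Agent.H5.Q1 (oc vx_oc ty_oc fi_oc oc_congr oc_inj eq_oc nxC_oc nxO_oc oc_cases)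
open Pool.Agent.Q1.M4 (Cell Good IsSide nextSide tail head PType Adj4 Conn4)
open Pool.Agent.H33.Q1 Pool.Agent.H21.FM Pool.Agent.H42.FM
open Pool.Agent.H60.Q1 (Near Far)
open Pool.Agent.H99.NC (BR inR inR_iff)

variable {S : Shape} {h : ℕ} {ω W : Finset (ℤ × ℤ)}

/-- the layer of a free side is closed -/
lemma out_free (hh : 0 < h) (hω : ω ⊆ EE S h) (hW : Wir S h W) {i : ℕ} (hi : S.Fr i) {e : ℤ × ℤ}
    (he : e ∈ LY (2 * h) (S.P.side i)) : e ∉ ω ∪ W := by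
  have hn : (0 : ℤ) < 2 * h := by positivity
  rw [mem_union, not_or]
  refine ⟨fun h' => ?_, free_notMem hi he hW⟩
  have h1 := hω h'
  unfold EE at h1
  rw [mem_TL hn] at h1
  rw [mem_LY hn] at he
  rw [he.2.1] at h1
  exact (S.isSide i).2 h1.2

lemma fi_step (h : ℕ) (s : Cell × ℤ) (j : ℕ) :
    fi (oc (wv h s j) (s.2 + 2)) = fi (oc (wv h s (j + 1)) s.2) := by
  rw [wv_succ]
  generalize wv h s j = v
  obtain ⟨a0, a1, a2, a3⟩ := fi_oc v (s.2 + 2)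
  obtain ⟨b0, b1, b2, b3⟩ := fi_oc (v + dir s.2 + dir (s.2 + 1)) s.2
  rcases dir_cases s.2 with ⟨a, e⟩ | ⟨a, e⟩ | ⟨a, e⟩ | ⟨a, e⟩ <;>
  rcases dir_cases (s.2 + 1) with ⟨b, f⟩ | ⟨b, f⟩ | ⟨b, f⟩ | ⟨b, f⟩ <;>
  first
  | (exfalso; omega)
  | skip
  · rw [a2 (by omega), b0 a, e, f]; refine Prod.ext ?_ ?_ <;> simp
  · rw [a3 (by omega), b1 a, e, f]; refine Prod.ext ?_ ?_ <;> simp
  · rw [a0 (by omega), b2 a, e, f]; refine Prod.ext ?_ ?_ <;> simp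
  · rw [a1 (by omega), b3 a, e, f]; refine Prod.ext ?_ ?_ <;> simp

/-- along a free side -/
lemma chain_side (hh : 0 < h) (hω : ω ⊆ EE S h) (hW : Wir S h W) {i : ℕ} (hi : S.Fr i) :
    ∀ j ≤ h, DCo (ω ∪ W) (fi (oc (wv h (S.P.side i) 0) (S.k i + 1)))
      (fi (oc (wv h (S.P.side i) j) (S.k i + 1))) := by
  intro j
  induction j with
  | zero => exact fun _ => DCo.refl _ _
  | succ j ih =>
    intro hj
    refine (ih (by omega)).trans ?_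
    have h1 : DCo (ω ∪ W) (fi (oc (wv h (S.P.side i) j) (S.k i + 1)))
        (fi (oc (wv h (S.P.side i) j) (S.k i + 1 + 1))) := by
      apply DCo_oc
      rw [add_sub_cancel_right]
      exact out_free hh hω hW hi (ly_out hh _ (by omega))
    rw [show S.k i + 1 + 1 = (S.P.side i).2 + 2 by unfold Shape.k; ring, fi_step] at h1
    refine h1.trans (DCo_oc ?_)
    exact out_free hh hω hW hi (ly_out' hh _ (by omega) hj)

/-- the wall face after the vertex `j` -/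
lemma chain_wall (hh : 0 < h) (hω : ω ⊆ EE S h) (hW : Wir S h W) {i : ℕ} (hi : S.Fr i) {j : ℕ}
    (hj : j < h) : DCo (ω ∪ W) (fi (oc (wv h (S.P.side i) 0) (S.k i + 1)))
      (fi (oc (wv h (S.P.side i) j) (S.k i + 2))) := by
  refine (chain_side hh hω hW hi j hj.le).trans ?_
  rw [show S.k i + 2 = S.k i + 1 + 1 by ring]
  apply DCo_oc
  rw [add_sub_cancel_right]
  exact out_free hh hω hW hi (ly_out hh _ hj)

/-- the label opposite to the polygon at a convex corner -/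
lemma diag_out (hh : 0 < h) {s : Cell × ℤ} (H : Cx S s) : ql (wv h s 0) (s.2 - 1) ∉ EE S h := by
  have hz : (0 : ℤ) < h := by exact_mod_cast hh
  intro hm
  have hB : ql (wv h s 0) (s.2 - 1) ∈ BR (wv h s 0) h := by
    rw [mem_BR]
    have h1 := ql_odd (wv h s 0) (s.2 - 1)
    have h2 : |(dir (s.2 - 1)).1| ≤ 1 ∧ |(dir (s.2 - 1)).2| ≤ 1 := by
      rcases dir_cases (s.2 - 1) with ⟨-, e⟩ | ⟨-, e⟩ | ⟨-, e⟩ | ⟨-, e⟩ <;> rw [e] <;> simp
    rw [abs_le, abs_le] at h2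
    refine ⟨?_, ?_, h1⟩ <;> unfold ql <;> simp only [Prod.fst_add, Prod.snd_add] <;> omega
  have h1 := ((H.mem_EE hh hB).1 hm).1
  unfold ql at h1
  rw [cr_add, cr_add] at h1
  have h2 : cr s.2 (dir (s.2 - 1)) = -1 := by
    unfold cr
    rcases dir_cases s.2 with ⟨a, e⟩ | ⟨a, e⟩ | ⟨a, e⟩ | ⟨a, e⟩ <;>
    rcases dir_cases (s.2 - 1) with ⟨b, f⟩ | ⟨b, f⟩ | ⟨b, f⟩ | ⟨b, f⟩ <;>
    first
    | (exfalso; omega)
    | (rw [e, f]; simp)
  omega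

/-- around a vertex between two free sides -/
lemma chain_corner (hh : 0 < h) (hω : ω ⊆ EE S h) (hW : Wir S h W) {i : ℕ} (hi : S.Fr i)
    (hi' : S.Fr (i + 1)) : DCo (ω ∪ W) (fi (oc (wv h (S.P.side i) h) (S.k i + 1)))
      (fi (oc (wv h (S.P.side (i + 1)) 0) (S.k (i + 1) + 1))) := by
  have e0 : wv h (S.P.side i) h = wv h (S.P.side (i + 1)) 0 := by
    rw [S.succ, wv_last h S.P.Q]
  have hs := S.succ i
  rcases turn_cases S.P.Q (S.P.side i) with ⟨h1, -⟩ | ⟨h1, -⟩ | ⟨h1, -⟩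
  · have hk : S.k (i + 1) + 1 = S.k i := by
      unfold Shape.k
      rw [hs, h1]
      ring
    rw [hk, ← e0]
    exact (DCo_oc (out_free hh hω hW hi (ly_out' hh _ hh le_rfl))).symm
  · have hk : S.k (i + 1) = S.k i := by
      unfold Shape.k
      rw [hs, h1]
    rw [hk, ← e0]
    exact DCo.refl _ _
  · have hk : S.k (i + 1) = S.k i + 1 := by
      unfold Shape.k
      rw [hs, h1]
    rw [hk, e0]
    apply DCo_oc
    rw [add_sub_cancel_right, mem_union, not_or]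
    refine ⟨fun h' => ?_, hW.diag i hi hi' (by rw [hs, h1])⟩
    have hC : Cx S (S.P.side (i + 1)) := by
      refine ⟨S.isSide (i + 1), ?_⟩
      rw [hs, h1]
      simp only [add_sub_cancel_right]
      exact S.isSide i
    have h2 := diag_out hh hC
    have h3 : (S.P.side (i + 1)).2 - 1 = S.k i := by
      have : (S.P.side (i + 1)).2 = S.k i + 1 := hk
      omega
    rw [h3] at h2
    exact h2 (hω h')

/-- **along a free arc** -/
theorem chain (hh : 0 < h) (hω : ω ⊆ EE S h) (hW : Wir S h W) {i : ℕ} : ∀ n : ℕ,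
    (∀ t ≤ n, S.Fr (i + t)) → DCo (ω ∪ W) (fi (oc (wv h (S.P.side i) 0) (S.k i + 1)))
      (fi (oc (wv h (S.P.side (i + n)) 0) (S.k (i + n) + 1))) := by
  intro n
  induction n with
  | zero => exact fun _ => DCo.refl _ _
  | succ n ih =>
    intro hf
    refine (ih fun t ht => hf t (by omega)).trans ?_
    exact (chain_side hh hω hW (hf n (by omega)) h le_rfl).trans
      (chain_corner hh hω hW (hf n (by omega)) (hf (n + 1) le_rfl))

/-! ### positions of the wall faces -/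

lemma fa_inj {k : ℤ} {w a b : ℤ × ℤ} (h1 : fa k w a = fa k w b)
    (h2 : fa (k + 1) w a = fa (k + 1) w b) : a = b := by
  unfold fa at h1 h2
  rcases cr_all k with ⟨-, e, f⟩ | ⟨-, e, f⟩ | ⟨-, e, f⟩ | ⟨-, e, f⟩ <;>
    simp only [e] at h1 <;> simp only [f] at h2 <;> refine Prod.ext ?_ ?_ <;> omega

lemma fa_two (k : ℤ) (w v : ℤ × ℤ) : fa k w (fi (oc v (k + 2))) = cr k v - cr k w + 1 ∧
    fa (k + 1) w (fi (oc v (k + 2))) = cr (k + 1) v - cr (k + 1) w := by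
  obtain ⟨a0, a1, a2, a3⟩ := fi_oc v (k + 2)
  unfold fa
  rcases dir_cases k with ⟨a, -⟩ | ⟨a, -⟩ | ⟨a, -⟩ | ⟨a, -⟩
  · rw [a2 (by omega)]
    rcases cr_all k with ⟨⟨p, q⟩, e, f⟩ | ⟨⟨p, q⟩, e, f⟩ | ⟨⟨p, q⟩, e, f⟩ | ⟨⟨p, q⟩, e, f⟩ <;>
    first
    | (rw [dir0 a] at p; simp at p; done)
    | (simp only [e, f, p, q]; constructor <;> ring)
  · rw [a3 (by omega)]
    rcases cr_all k with ⟨⟨p, q⟩, e, f⟩ | ⟨⟨p, q⟩, e, f⟩ | ⟨⟨p, q⟩, e, f⟩ | ⟨⟨p, q⟩, e, f⟩ <;>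
    first
    | (rw [dir1 a] at p; simp at p; done)
    | (simp only [e, f, p, q]; constructor <;> ring)
  · rw [a0 (by omega)]
    rcases cr_all k with ⟨⟨p, q⟩, e, f⟩ | ⟨⟨p, q⟩, e, f⟩ | ⟨⟨p, q⟩, e, f⟩ | ⟨⟨p, q⟩, e, f⟩ <;>
    first
    | (rw [dir2 a] at p; simp at p; done)
    | (simp only [e, f, p, q]; constructor <;> ring)
  · rw [a1 (by omega)]
    rcases cr_all k with ⟨⟨p, q⟩, e, f⟩ | ⟨⟨p, q⟩, e, f⟩ | ⟨⟨p, q⟩, e, f⟩ | ⟨⟨p, q⟩, e, f⟩ <;>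
    first
    | (rw [dir3 a] at p; simp at p; done)
    | (simp only [e, f, p, q]; constructor <;> ring)

lemma fa_one (k : ℤ) (w v : ℤ × ℤ) : fa k w (fi (oc v (k + 1))) = cr k v - cr k w ∧
    fa (k + 1) w (fi (oc v (k + 1))) = cr (k + 1) v - cr (k + 1) w - 1 := by
  obtain ⟨a0, a1, a2, a3⟩ := fi_oc v (k + 1)
  unfold fa
  rcases dir_cases k with ⟨a, -⟩ | ⟨a, -⟩ | ⟨a, -⟩ | ⟨a, -⟩
  · rw [a1 (by omega)]
    rcases cr_all k with ⟨⟨p, q⟩, e, f⟩ | ⟨⟨p, q⟩, e, f⟩ | ⟨⟨p, q⟩, e, f⟩ | ⟨⟨p, q⟩, e, f⟩ <;>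
    first
    | (rw [dir0 a] at p; simp at p; done)
    | (simp only [e, f, p, q]; constructor <;> ring)
  · rw [a2 (by omega)]
    rcases cr_all k with ⟨⟨p, q⟩, e, f⟩ | ⟨⟨p, q⟩, e, f⟩ | ⟨⟨p, q⟩, e, f⟩ | ⟨⟨p, q⟩, e, f⟩ <;>
    first
    | (rw [dir1 a] at p; simp at p; done)
    | (simp only [e, f, p, q]; constructor <;> ring)
  · rw [a3 (by omega)]
    rcases cr_all k with ⟨⟨p, q⟩, e, f⟩ | ⟨⟨p, q⟩, e, f⟩ | ⟨⟨p, q⟩, e, f⟩ | ⟨⟨p, q⟩, e, f⟩ <;>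
    first
    | (rw [dir2 a] at p; simp at p; done)
    | (simp only [e, f, p, q]; constructor <;> ring)
  · rw [a0 (by omega)]
    rcases cr_all k with ⟨⟨p, q⟩, e, f⟩ | ⟨⟨p, q⟩, e, f⟩ | ⟨⟨p, q⟩, e, f⟩ | ⟨⟨p, q⟩, e, f⟩ <;>
    first
    | (rw [dir3 a] at p; simp at p; done)
    | (simp only [e, f, p, q]; constructor <;> ring)

lemma cr_wv (h : ℕ) (s : Cell × ℤ) (j : ℕ) : cr s.2 (wv h s j) = cr s.2 (wv h s 0) + 2 * j ∧
    cr (s.2 + 1) (wv h s j) = cr (s.2 + 1) (wv h s 0) := by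
  induction j with
  | zero => simp
  | succ j ih =>
    have h1 := cr_next_dir s.2
    have h2 : cr s.2 (dir s.2) = 1 ∧ cr (s.2 + 1) (dir s.2) = -1 := by
      rcases cr_all s.2 with ⟨⟨p, q⟩, e, f⟩ | ⟨⟨p, q⟩, e, f⟩ | ⟨⟨p, q⟩, e, f⟩ | ⟨⟨p, q⟩, e, f⟩ <;>
        rw [e, f, p] <;> simp
    rw [wv_succ, cr_add, cr_add, cr_add, cr_add]
    push_cast
    omega

/-- wall faces of the side after the corner -/
lemma wall_after {s : Cell × ℤ} {b : ℤ × ℤ} (h1 : fa (s.2 + 1) (wv h s 0) b = 0)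
    (h2 : 0 ≤ fa s.2 (wv h s 0) b) (h3 : fa s.2 (wv h s 0) b < 2 * h) :
    ∃ j < h, b = fi (oc (wv h s j) (s.2 + 2)) := by
  have h4 := fa_par s.2 (wv h s 0) b
  obtain ⟨j, hj⟩ : ∃ j : ℕ, fa s.2 (wv h s 0) b = 2 * j + 1 :=
    ⟨((fa s.2 (wv h s 0) b - 1) / 2).toNat, by omega⟩
  refine ⟨j, by omega, ?_⟩
  have h5 := fa_two s.2 (wv h s 0) (wv h s j)
  have h6 := cr_wv h s j
  exact fa_inj (k := s.2) (w := wv h s 0) (by omega) (by omega)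

/-- wall faces of the side before the corner -/
lemma wall_before {s : Cell × ℤ} {b : ℤ × ℤ} (hw : wv h s 0 = wv h (s.1, s.2 - 1) h)
    (h1 : fa s.2 (wv h s 0) b = 0)
    (h2 : 0 ≤ fa (s.2 + 1) (wv h s 0) b) (h3 : fa (s.2 + 1) (wv h s 0) b < 2 * h) :
    ∃ j < h, b = fi (oc (wv h (s.1, s.2 - 1) j) (s.2 - 1 + 2)) := by
  have h4 := fa_par s.2 (wv h s 0) b
  obtain ⟨j, hj⟩ : ∃ j : ℕ, fa (s.2 + 1) (wv h s 0) b = 2 * j + 1 :=
    ⟨((fa (s.2 + 1) (wv h s 0) b - 1) / 2).toNat, by omega⟩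
  refine ⟨h - 1 - j, by omega, ?_⟩
  rw [show s.2 - 1 + 2 = s.2 + 1 by ring]
  have h5 := fa_one s.2 (wv h s 0) (wv h (s.1, s.2 - 1) (h - 1 - j))
  have h6 := cr_wv h (s.1, s.2 - 1) (h - 1 - j)
  have h7 := cr_wv h (s.1, s.2 - 1) h
  simp only [sub_add_cancel] at h6 h7
  have h8 : ∀ v, cr (s.2 + 1) v = - cr (s.2 - 1) v := by
    intro v
    unfold cr
    rw [dir_pred]
    simp only [Prod.fst_neg, Prod.snd_neg]
    ring
  have h9 := h8 (wv h s 0)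
  have h10 := h8 (wv h (s.1, s.2 - 1) (h - 1 - j))
  have h11 : ((h - 1 - j : ℕ) : ℤ) = h - 1 - j := by omega
  rw [h11] at h6
  rw [← hw] at h7
  exact fa_inj (k := s.2) (w := wv h s 0) (by omega) (by omega)

end Pool.Agent.H9.FM
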