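import Mathlib
import Pool.Agent.H9.FM.DualWall
import Pool.Agent.H44.FM.MarkDefs

set_option autoImplicit false
open Finset

/-! # The dual case at the four marks

A closed dual path from a face near a mark to the root of the other free arc stays in the quadrant of the
mark up to distance `h - 4`. -/

namespace Pool.Agent.H9.FM

open Pool.Agent.H75.Perc hiding WL CT hh EE sh
open Pool.Agent.H75.TwoArm Pool.Agent.H75.Four Pool.Agent.H69.Q1 Pool.Agent.Q1
open Pool.Agent.H5.Q1 (oc vx_oc ty_oc fi_oc oc_congr oc_inj eq_oc nxC_oc nxO_oc oc_cases)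
open Pool.Agent.Q1.M4 (Cell Good IsSide nextSide tail head PType Adj4 Conn4)
open Pool.Agent.H33.Q1 Pool.Agent.H21.FM Pool.Agent.H42.FM Pool.Agent.H44.FM
open Pool.Agent.H60.Q1 (Near Far)
open Pool.Agent.H99.NC (BR inR inR_iff)

variable {S : Shape} {h : ℕ} {ω W : Finset (ℤ × ℤ)}

lemma fi_vx (z : ℤ × ℤ) : ((fi z).1 = (vx z).1 ∨ (fi z).1 = (vx z).1 + 1) ∧
    ((fi z).2 = (vx z).2 ∨ (fi z).2 = (vx z).2 + 1) := by
  unfold fi vx
  simp only
  omega

lemma dir_le (k : ℤ) : (-1 ≤ (dir k).1 ∧ (dir k).1 ≤ 1) ∧ (-1 ≤ (dir k).2 ∧ (dir k).2 ≤ 1) := by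
  rcases dir_cases k with ⟨-, e⟩ | ⟨-, e⟩ | ⟨-, e⟩ | ⟨-, e⟩ <;> rw [e] <;> simp

/-- the face of a corner of a random label is joined to a neighbour across a random label -/
lemma fi_nb {z : ℤ × ℤ} (hz : lab z ∈ EE S h ∨ plab z ∈ EE S h) :
    ∃ a', IsUnit4 (a' - fi z) ∧ fi z + a' - (1, 1) ∈ EE S h := by
  rcases hz with hz | hz
  · obtain ⟨h1, h2⟩ := BadAux.fi_nxC z
    exact ⟨fi (nxC z), h1, by rw [h2]; exact hz⟩
  · obtain ⟨h1, h2⟩ := BadAux.fi_nxC (oc (vx z) (ty z - 1))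
    rw [nxC_oc, sub_add_cancel, ← eq_oc] at h1 h2
    refine ⟨fi (oc (vx z) (ty z - 1)), ?_, ?_⟩
    · have := isUnit4_neg h1
      rwa [neg_sub] at this
    · have e : plab z = ql (vx z) (ty z + 2) := by
        conv_lhs => rw [eq_oc z]
        rw [plab_oc]
      rw [lab_oc, ql_congr _ (show (ty z - 1 - 1) % 4 = (ty z + 2) % 4 by omega), ← e] at h2
      rw [add_comm (fi z), h2]
      exact hz

lemma fi_start {s : Cell × ℤ} (H : Cx S s) (hh : 10 ≤ h) {ρ : ℤ} {z : ℤ × ℤ} (hρ : ρ < h - 6)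
    (hz : lab z ∈ EE S h ∨ plab z ∈ EE S h) (hn : Near (wv h s 0) ρ (vx z)) :
    0 ≤ fa s.2 (wv h s 0) (fi z) ∧ 0 ≤ fa (s.2 + 1) (wv h s 0) (fi z) := by
  obtain ⟨a', h1, h2⟩ := fi_nb hz
  have h3 := fi_vx z
  have h4 := unit_cases h1
  have h5 : (0 : ℤ) < 2 * h := by positivity
  have h6 : ((fi z + a' - (1, 1)).1 + (fi z + a' - (1, 1)).2) % 2 = 1 := by
    have := h2
    unfold EE at this
    rw [mem_TL h5] at this
    exact this.1
  have hB : fi z + a' - (1, 1) ∈ BR (wv h s 0) h := by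
    rw [mem_BR]
    unfold Near at hn
    rw [abs_le, abs_le] at hn
    refine ⟨?_, ?_, h6⟩ <;> simp only [Prod.fst_add, Prod.snd_add, Prod.fst_sub, Prod.snd_sub] <;>
      omega
  obtain ⟨h7, h8⟩ := (H.mem_EE (by omega) hB).1 h2
  have h9 := fa_lab s.2 (wv h s 0) (fi z) a'
  have h10 := fa_unit s.2 (wv h s 0) h1
  omega

/-- positions in a box -/
lemma fa_near {k : ℤ} {w f : ℤ × ℤ} {R : ℤ} (hn : Near w R f) :
    fa k w f ≤ 2 * R + 1 ∧ fa (k + 1) w f ≤ 2 * R + 1 := by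
  unfold Near at hn
  rw [abs_le, abs_le] at hn
  unfold fa
  rcases cr_all k with ⟨⟨a', b'⟩, e, f'⟩ | ⟨⟨a', b'⟩, e, f'⟩ | ⟨⟨a', b'⟩, e, f'⟩ | ⟨⟨a', b'⟩, e, f'⟩ <;>
    simp only [e, f', a', b'] <;> omega

/-- **Confinement of the dual path.** -/
theorem core {s : Cell × ℤ} (H : Cx S s) (hh : 10 ≤ h) {ρ : ℤ} {z g : ℤ × ℤ} (hρ : ρ < h - 6)
    (hz : lab z ∈ EE S h ∨ plab z ∈ EE S h) (hn : Near (wv h s 0) ρ (vx z))
    (hg : DCo (ω ∪ W) g (fi z)) (hfar : Far (wv h s 0) (h - 1) g) {wall : ℤ × ℤ → Prop}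
    (HL : ∀ a b, IsUnit4 (b - a) → a + b - (1, 1) ∉ ω ∪ W → a + b - (1, 1) ∈ BR (wv h s 0) (h - 1) →
      0 ≤ fa s.2 (wv h s 0) a → 0 ≤ fa (s.2 + 1) (wv h s 0) a → ¬ wall a →
      0 ≤ fa s.2 (wv h s 0) a + fa s.2 (wv h s 0) b ∧
      0 ≤ fa (s.2 + 1) (wv h s 0) a + fa (s.2 + 1) (wv h s 0) b)
    (HW : ∀ b, fa s.2 (wv h s 0) b < 2 * h → fa (s.2 + 1) (wv h s 0) b < 2 * h →
      0 ≤ fa s.2 (wv h s 0) b → 0 ≤ fa (s.2 + 1) (wv h s 0) b →
      DCo (ω ∪ W) g b → ¬ wall b) :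
    UA s.2 (wv h s 0 - dir (s.2 + 1)) (ρ + 2) (h - 4) (du (EE S h) ω) := by
  have hd := dir_le (s.2 + 1)
  have hv := fi_vx z
  have hst := fi_start H hh hρ hz hn
  obtain ⟨F, hF⟩ := hg.symm
  have hfar' : Far (wv h s 0 - dir (s.2 + 1)) (h - 4) g := by
    unfold Far at hfar ⊢
    simp only [Prod.fst_sub, Prod.snd_sub]
    rw [le_abs, le_abs] at hfar ⊢
    omega
  obtain ⟨v', hv', hco⟩ := conf (η' := du (EE S h) ω) (k := s.2)
    (X := fun a => (0 ≤ fa s.2 (wv h s 0) a ∧ 0 ≤ fa (s.2 + 1) (wv h s 0) a) ∧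
      DCo (ω ∪ W) g a) (R := h - 4) (w := wv h s 0 - dir (s.2 + 1)) (by
    intro a b hab hX hnf
    obtain ⟨⟨x1, x2⟩, x3⟩ := hX
    have hnot : a + b - (1, 1) ∉ ω ∪ W := (BadAux.mem_du.1 hab.2).2
    have hna : Near (wv h s 0) (h - 4) a := by
      unfold Far at hnf
      unfold Near
      simp only [Prod.fst_sub, Prod.snd_sub] at hnf
      rw [not_or, not_le, not_le, abs_lt, abs_lt] at hnf
      rw [abs_le, abs_le]
      omega
    have hfn := fa_near (k := s.2) hna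
    have hwa := HW a (by omega) (by omega) x1 x2 x3
    have hu := unit_cases hab.1
    have hBR : ∀ R : ℤ, (h : ℤ) - 1 ≤ R → a + b - (1, 1) ∈ BR (wv h s 0) R := by
      intro R hR
      rw [mem_BR]
      unfold Near at hna
      rw [abs_le, abs_le] at hna
      refine ⟨?_, ?_, ?_⟩ <;> simp only [Prod.fst_add, Prod.snd_add, Prod.fst_sub, Prod.snd_sub] <;>
        omega
    obtain ⟨s1, s2⟩ := HL a b hab.1 hnot (hBR _ le_rfl) x1 x2 hwa
    have hl := fa_lab s.2 (wv h s 0) a b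
    have hE : a + b - (1, 1) ∈ EE S h :=
      (H.mem_EE (by omega) (hBR _ (by omega))).2 ⟨by omega, by omega⟩
    refine ⟨BadAux.mem_du.2 ⟨hE, fun h' => hnot (mem_union_left _ h')⟩, dK_dual s1 s2,
      fun _ => ⟨?_, x3.trans (DCo.step hab.1 hnot)⟩⟩
    have hfu := fa_unit s.2 (wv h s 0) hab.1
    omega) ⟨hst, hg⟩ hfar' hF
  refine UA_of (by omega) ?_ hv' hco
  unfold Near at hn ⊢
  simp only [Prod.fst_sub, Prod.snd_sub]
  rw [abs_le, abs_le] at hn ⊢
  omega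

lemma LY_congr (h : ℕ) {c : Cell} {k l : ℤ} (hk : k % 4 = l % 4) :
    LY (2 * h) (c, k) = LY (2 * h) (c, l) := by
  unfold LY
  simp only
  rw [dir_congr (show (k - 1) % 4 = (l - 1) % 4 by omega)]

/-- the free side is after the mark -/
theorem core1 {s : Cell × ℤ} (H : Cx S s) (hh : 10 ≤ h) {ρ : ℤ} {z g : ℤ × ℤ} (hρ : ρ < h - 6)
    (hz : lab z ∈ EE S h ∨ plab z ∈ EE S h) (hn : Near (wv h s 0) ρ (vx z))
    (hg : DCo (ω ∪ W) g (fi z)) (hfar : Far (wv h s 0) (h - 1) g)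
    (hLY : LY (2 * h) (s.1, s.2 - 1) ⊆ W)
    (hfree : ∀ j < h, ¬ DCo (ω ∪ W) g (fi (oc (wv h s j) (s.2 + 2)))) :
    UA s.2 (wv h s 0 - dir (s.2 + 1)) (ρ + 2) (h - 4) (du (EE S h) ω) := by
  refine core (wall := fun b => fa (s.2 + 1) (wv h s 0) b = 0) H hh hρ hz hn hg hfar ?_ ?_
  · intro a b hu hnot hB x1 x2 hw
    have hfu := fa_unit s.2 (wv h s 0) hu
    have hl := fa_lab s.2 (wv h s 0) a b
    refine ⟨?_, by omega⟩
    by_contra hcon
    apply hnot
    refine mem_union_right _ (hLY (LY_before (by omega) s hB ?_ ?_)) <;> omega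
  · intro b b1 b2 b3 b4 b5 b6
    obtain ⟨j, hj, rfl⟩ := wall_after b6 b3 b1
    exact hfree j hj b5

/-- the free side is before the mark -/
theorem core2 {s : Cell × ℤ} (H : Cx S s) (hh : 10 ≤ h) {ρ : ℤ} {z g : ℤ × ℤ} (hρ : ρ < h - 6)
    (hz : lab z ∈ EE S h ∨ plab z ∈ EE S h) (hn : Near (wv h s 0) ρ (vx z))
    (hg : DCo (ω ∪ W) g (fi z)) (hfar : Far (wv h s 0) (h - 1) g)
    (hw : wv h s 0 = wv h (s.1, s.2 - 1) h)
    (hLY : LY (2 * h) s ⊆ W)
    (hfree : ∀ j < h, ¬ DCo (ω ∪ W) g (fi (oc (wv h (s.1, s.2 - 1) j) (s.2 - 1 + 2)))) :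
    UA s.2 (wv h s 0 - dir (s.2 + 1)) (ρ + 2) (h - 4) (du (EE S h) ω) := by
  refine core (wall := fun b => fa s.2 (wv h s 0) b = 0) H hh hρ hz hn hg hfar ?_ ?_
  · intro a b hu hnot hB x1 x2 hw'
    have hfu := fa_unit s.2 (wv h s 0) hu
    have hl := fa_lab s.2 (wv h s 0) a b
    refine ⟨by omega, ?_⟩
    by_contra hcon
    apply hnot
    refine mem_union_right _ (hLY (LY_after (by omega) s hB ?_ ?_)) <;> omega
  · intro b b1 b2 b3 b4 b5 b6
    obtain ⟨j, hj, rfl⟩ := wall_before hw b6 b4 b2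
    exact hfree j hj b5

/-- different vertices of the walk are far apart -/
theorem side_far (hh : 0 < h) {i j : ℕ} (hi : i < S.P.N) (hj : j < S.P.N) (hij : i ≠ j) :
    Far (wv h (S.P.side i) 0) h (wv h (S.P.side j) 0) := by
  have hz : (0 : ℤ) < h := by exact_mod_cast hh
  have hne : tail (S.P.side j) ≠ tail (S.P.side i) := by
    intro h1
    have h2 := Pool.Agent.Q1.M4.tail_inj S.P.good (isSide_side' S.P j) (isSide_side' S.P i) h1
    exact hij (side_inj (S := S) hj hi h2.1 h2.2).symm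
  have e1 : (wv h (S.P.side j) 0).1 - (wv h (S.P.side i) 0).1 =
      h * (((tail (S.P.side j)).1 - (tail (S.P.side i)).1) -
      ((tail (S.P.side j)).2 - (tail (S.P.side i)).2)) := by
    unfold wv
    simp only [Nat.cast_zero, zero_mul, add_zero]
    ring
  have e2 : (wv h (S.P.side j) 0).2 - (wv h (S.P.side i) 0).2 =
      h * (((tail (S.P.side j)).1 - (tail (S.P.side i)).1) +
      ((tail (S.P.side j)).2 - (tail (S.P.side i)).2)) := by
    unfold wv
    simp only [Nat.cast_zero, zero_mul, add_zero]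
    ring
  unfold Far
  rw [e1, e2, abs_mul, abs_mul, abs_of_pos hz]
  set D1 := (tail (S.P.side j)).1 - (tail (S.P.side i)).1 with hD1
  set D2 := (tail (S.P.side j)).2 - (tail (S.P.side i)).2 with hD2
  have hD : D1 - D2 ≠ 0 ∨ D1 + D2 ≠ 0 := by
    by_contra hcon
    push Not at hcon
    apply hne
    refine Prod.ext ?_ ?_ <;> omega
  rcases hD with hD | hD
  · left
    have := Int.one_le_abs hD
    nlinarith
  · right
    have := Int.one_le_abs hD
    nlinarith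

lemma far_fi {w v : ℤ × ℤ} (hf : Far w h v) (k : ℤ) : Far w (h - 1) (fi (oc v k)) := by
  have h1 := fi_vx (oc v k)
  rw [vx_oc] at h1
  unfold Far at hf ⊢
  rw [le_abs, le_abs] at hf ⊢
  omega

lemma cx_succ {i : ℕ} (hi : S.P.side (i + 1) = ((S.P.side i).1, (S.P.side i).2 + 1)) :
    Cx S (S.P.side (i + 1)) := by
  refine ⟨S.isSide (i + 1), ?_⟩
  rw [hi]
  simp only [add_sub_cancel_right]
  exact S.isSide i

lemma cx_zero (S : Shape) : Cx S (S.P.side 0) := by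
  refine ⟨S.isSide 0, ?_⟩
  have h1 := S.isSide (S.P.N - 1)
  rw [side_pred] at h1
  refine ⟨h1.1, ?_⟩
  have h2 := h1.2
  simp only at h2 ⊢
  rw [dir_congr (show ((S.P.side 0).2 - 1 - 1) % 4 = ((S.P.side 0).2 + 3 - 1) % 4 by omega)]
  exact h2

/-- **the dual case**, all marks -/
theorem dualCase (S : Shape) {h : ℕ} (hh : 10 ≤ h) (m : Fin 4) : DualCase S h m := by
  intro ω hω W hW ρ z hρ hz hn hno hd
  have h02 := S.h02
  have h23 := S.h23
  have h34 := S.h34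
  have hmN := S.P.hmN
  have hm4 : S.m4 = S.P.m := rfl
  have hp : 0 < h := by omega
  have hSN : S.N = S.P.N := rfl
  fin_cases m
  · -- mark 1
    simp only [Fin.zero_eta, Fin.isValue, true_or, if_true] at hd ⊢
    change UA (S.P.side 0).2 (wv h (S.P.side 0) 0 - dir ((S.P.side 0).2 + 1)) (ρ + 2) (h - 4) _
    have hd' : DCo (ω ∪ W) (fi (r3 S h)) (fi z) := hd
    refine core1 (W := W) (cx_zero S) hh hρ hz hn hd' (far_fi (side_far hp (by omega) (by omega)
      (by omega)) _) ?_ ?_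
    · have h1 := hW.wired (S.P.N - 1) (Or.inr (by omega))
      rw [side_pred] at h1
      rw [LY_congr h (show ((S.P.side 0).2 - 1) % 4 = ((S.P.side 0).2 + 3) % 4 by omega)]
      exact h1
    · intro j hj h1
      exact hno ((chain_wall hp hω hW (Or.inl h02) hj).trans h1.symm)
  · -- mark 2
    obtain ⟨i, hi⟩ : ∃ i, S.m2 = i + 1 := ⟨S.m2 - 1, by omega⟩
    have hc := S.cvx i (Or.inl hi.symm)
    have hd' : DCo (ω ∪ W) (fi (r3 S h)) (fi z) := by simpa using hd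
    change UA (S.P.side S.m2).2 (wv h (S.P.side S.m2) 0 - dir ((S.P.side S.m2).2 + 1)) (ρ + 2) (h - 4) _
    have hn' : Near (wv h (S.P.side S.m2) 0) ρ (vx z) := hn
    have e1 : ((S.P.side (i + 1)).1, (S.P.side (i + 1)).2 - 1) = S.P.side i := by
      rw [hc]; simp
    rw [hi] at hn' ⊢
    refine core2 (W := W) (cx_succ hc) hh hρ hz hn' hd' (far_fi (side_far hp (by omega) (by omega)
      (by omega)) _) ?_ (hW.wired (i + 1) (Or.inl (by omega))) ?_
    · rw [e1, wv_last h S.P.Q, S.succ]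
    · intro j hj h1
      rw [e1] at h1
      rw [show (S.P.side (i + 1)).2 - 1 + 2 = S.k i + 2 by rw [hc]; unfold Shape.k; ring] at h1
      have h2 := chain hp hω hW (i := 0) i (fun t ht => Or.inl (by omega))
      rw [zero_add] at h2
      exact hno ((h2.trans (chain_wall hp hω hW (Or.inl (by omega)) hj)).trans h1.symm)
  · -- mark 3
    obtain ⟨i, hi⟩ : ∃ i, S.m3 = i + 1 := ⟨S.m3 - 1, by omega⟩
    have hc := S.cvx i (Or.inr (Or.inl hi.symm))
    have hd' : DCo (ω ∪ W) (fi (r1 S h)) (fi z) := by simpa using hd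
    change UA (S.P.side S.m3).2 (wv h (S.P.side S.m3) 0 - dir ((S.P.side S.m3).2 + 1)) (ρ + 2) (h - 4) _
    have hn' : Near (wv h (S.P.side S.m3) 0) ρ (vx z) := hn
    have e1 : ((S.P.side S.m3).1, (S.P.side S.m3).2 - 1) = S.P.side i := by
      rw [hi, hc]; simp
    have hcx : Cx S (S.P.side S.m3) := by rw [hi]; exact cx_succ hc
    refine core1 (W := W) hcx hh hρ hz hn' hd' (far_fi (side_far hp (by omega) (by omega)
      (by omega)) _) ?_ ?_
    · rw [e1]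
      exact hW.wired i (Or.inl (by omega))
    · intro j hj h1
      exact hno (((chain_wall hp hω hW (Or.inr (by omega)) hj).trans h1.symm).symm)
  · -- mark 4
    obtain ⟨i, hi⟩ : ∃ i, S.m4 = i + 1 := ⟨S.m4 - 1, by omega⟩
    have hc := S.cvx i (Or.inr (Or.inr (Or.inl (by omega))))
    have hd' : DCo (ω ∪ W) (fi (r1 S h)) (fi z) := by simpa using hd
    change UA (S.P.side S.m4).2 (wv h (S.P.side S.m4) 0 - dir ((S.P.side S.m4).2 + 1)) (ρ + 2) (h - 4) _
    have hn' : Near (wv h (S.P.side S.m4) 0) ρ (vx z) := hn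
    have e1 : ((S.P.side (i + 1)).1, (S.P.side (i + 1)).2 - 1) = S.P.side i := by
      rw [hc]; simp
    rw [hi] at hn' ⊢
    refine core2 (W := W) (cx_succ hc) hh hρ hz hn' hd' (far_fi (side_far hp (by omega) (by omega)
      (by omega)) _) ?_ (hW.wired (i + 1) (Or.inr (by omega))) ?_
    · rw [e1, wv_last h S.P.Q, S.succ]
    · intro j hj h1
      rw [e1] at h1
      rw [show (S.P.side (i + 1)).2 - 1 + 2 = S.k i + 2 by rw [hc]; unfold Shape.k; ring] at h1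
      have h2 := chain hp hω hW (i := S.m3) (i - S.m3) (fun t ht => Or.inr (by omega))
      rw [show S.m3 + (i - S.m3) = i by omega] at h2
      exact hno (((h2.trans (chain_wall hp hω hW (Or.inr (by omega)) hj)).trans h1.symm).symm)

end Pool.Agent.H9.FM
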